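import Pool.Agent.HP27.PG.C

/-!
# Goldbach representations with a prime-indexed prime (or with a prime in any dense set of primes) of almost all multiples of a
small primorial in all windows, of the length of a power of the logarithm and longer, around a random number with small
collision probability

No structure of the random number `X` is used, only that the sums of some number `q` of independent copies of `X` collide with
a probability which is minimal up to a power of the logarithm.

New: the model for the sum over one set of primes under this hypothesis, the maximal form over all windows, the sieve of the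
differences in windows of the length of a power of the logarithm (`Pool.Agent.HP27.PG`). From the starting files: the second
moment of the singular factors of a dense set (`Pool.Agent.Y877`), the lower bound for the number of the prime-indexed primes,
the majorant and orthogonality estimates (`Pool.Agent.TH872.Sq`).
-/

set_option autoImplicit false

open Finset

namespace Pool.Agent.Results.MP_5d7b92_nt.ShortWindowsCollisions

/-- the product of `1 - 1/q` over the primes `q ≤ y` -/
noncomputable def V (y : ℕ) : ℝ := ∏ q ∈ (Icc 1 y).filter Nat.Prime, (1 - 1 / (q : ℝ))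

/-- the primes `p ≤ x` such that `π(p)` is prime -/
noncomputable def PP (x : ℕ) : Finset ℕ := (Icc 1 x).filter (fun p => p.Prime ∧ (Nat.primeCounting p).Prime)

/-- the `p ∈ S` such that `n - p` is a prime number -/
def Rep (S : Finset ℕ) (n : ℤ) : Finset ℕ := S.filter (fun p : ℕ => (n - p).toNat.Prime)

/-- the multiples of `M`, numbered from the last one which is not larger than `X` -/
noncomputable def mult (M : ℕ) (X : ℝ) (j : ℤ) : ℤ := M * (⌊X / M⌋ + j)

/-- In all windows around `X`: let `M` be the product of the primes `≤ y`. For all `G` with `log ^ W N ≤ G` and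
`2 M G ≤ N`, and for all integers `j` with `|j| ≤ G` except at most `ε G` of them, `n - p` is prime for at least
`(1 - ε) #S / (V y log N)` elements `p` of `S`, where `n` is the multiple of `M` with the number `j`. -/
def Windows (ε : ℝ) (W N y : ℕ) (S : Finset ℕ) (X : ℝ) : Prop :=
  ∀ G : ℕ, Real.log N ^ W ≤ G → 2 * (primorial y * G) ≤ N →
    (((Icc (-(G : ℤ)) G).filter (fun j => ((Rep S (mult (primorial y) X j)).card : ℝ) <
      (1 - ε) * (S.card / (V y * Real.log N)))).card : ℝ) ≤ ε * G

open Classical in
/-- The probability that `|X₁ + ... + X_q - X'₁ - ... - X'_q| ≤ 1`, if the `X_j` and `X'_j` are independent random numbers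
which take the value `a x` with the probability `p x`. -/
noncomputable def collision {ι : Type} [Fintype ι] (q : ℕ) (p a : ι → ℝ) : ℝ :=
  ∑ x : Fin q → ι, ∑ y : Fin q → ι, if |∑ j, a (x j) - ∑ j, a (y j)| ≤ 1 then (∏ j, p (x j)) * ∏ j, p (y j) else 0

open Classical in
/-- For all `A` and `0 < ε ≤ 1` there is `K₀` such that for all `q ≥ 1`, `κ`, `T`, `B`, `K₁` and `U` there is `W` such that
the following holds for all large `N`. Let `y` be between `K₀ log log N` and `K₁ log log N` and `M` the product of the primes
`≤ y`. Let `X = a x` be a random real number in `[2 N, T N]` with an ARBITRARY distribution on a finite set, such that the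
sums of `q` and of further `q` independent copies of `X` differ by at most `1` with a probability of at most `log ^ κ N / N`.
(1) Let `S l`, for at most `log ^ B N` indices `l`, be sets of at least `N / log ^ A N` primes `≤ N`. With a probability of at
least `1 - 1 / log ^ U N` the following holds for all `l`: in ALL windows of multiples of `M` around `X`, of `G ≥ log ^ W N`
multiples on both sides, `2 M G ≤ N`, all the multiples `n` of `M` except at most `ε G` are `p` plus a prime for at least
`(1 - ε) #(S l) / (V y log N)` elements `p` of `S l`. (2) There are at least `N / (8 log ^ 2 N)` primes `p ≤ N` with `π(p)`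
prime, and the conclusion of (1) holds for the set of all of them if `A ≥ 3`. -/
theorem result (A : ℕ) (ε : ℝ) (hε : 0 < ε) (hε1 : ε ≤ 1) : ∃ K₀ : ℕ, ∀ q : ℕ, 1 ≤ q → ∀ κ T B K₁ U : ℕ, ∃ W N₀ : ℕ,
    ∀ N : ℕ, N₀ ≤ N → ∀ y : ℕ, K₀ * Real.log (Real.log N) ≤ y → y ≤ K₁ * Real.log (Real.log N) →
    ∀ (ι : Type) [Fintype ι] (p a : ι → ℝ), (∀ x, 0 ≤ p x) → ∑ x, p x = 1 → (∀ x, 2 * N ≤ a x ∧ a x ≤ T * N) →
    collision q p a ≤ Real.log N ^ κ / N →
      (∀ L : ℕ, (L : ℝ) ≤ Real.log N ^ B → ∀ S : Fin L → Finset ℕ, (∀ l, S l ⊆ Icc 1 N) → (∀ l, ∀ s ∈ S l, s.Prime) →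
        (∀ l, (N : ℝ) ≤ (S l).card * Real.log N ^ A) →
        1 - 1 / Real.log N ^ U ≤ ∑ x, (if ∀ l, Windows ε W N y (S l) (a x) then p x else 0)) ∧
      (N : ℝ) / (8 * Real.log N ^ 2) ≤ ((PP N).card : ℝ) ∧
      (3 ≤ A → 1 - 1 / Real.log N ^ U ≤ ∑ x, (if Windows ε W N y (PP N) (a x) then p x else 0)) := by
  obtain ⟨K₀, hK₀⟩ := Pool.Agent.HP27.PG.final A ε hε hε1
  refine ⟨K₀, fun q hq κ T B K₁ U => ?_⟩
  obtain ⟨W, n1, hn1⟩ := hK₀ q hq κ T K₁ (U + B)
  obtain ⟨n2, hn2⟩ := Pool.Agent.Y877.SX.PPi_low
  obtain ⟨n3, hn3⟩ := Pool.Agent.H373R2.T7.ev_L' 8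
  refine ⟨W, n1 + n2 + n3 + 1, fun N hN y hy1 hy2 ι _ p a hp0 hp1 ha hcoll => ?_⟩
  have hL := hn3 N (by omega)
  have hlow : (N : ℝ) / (8 * Real.log N ^ 2) ≤ ((PP N).card : ℝ) := hn2 N (by omega)
  have hN0 : (0 : ℝ) < N := by exact_mod_cast (by omega : 0 < N)
  have hL0 : 0 < Real.log N := by linarith
  have hcoll' : (N : ℝ) * Pool.Agent.HP27.EN.coll q p a ≤ Real.log N ^ κ := by
    have h1 : Pool.Agent.HP27.EN.coll q p a ≤ Real.log N ^ κ / N := hcoll
    rw [le_div_iff₀ hN0] at h1
    linarith
  have hone : ∀ S : Finset ℕ, S ⊆ Icc 1 N → (∀ s ∈ S, s.Prime) → (N : ℝ) ≤ S.card * Real.log N ^ A →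
      ∑ x, (if Windows ε W N y S (a x) then 0 else p x) ≤ 1 / Real.log N ^ (U + B) := by
    intro S hS hSp hSA
    refine le_trans (le_of_eq ?_) (hn1 N (by omega) y hy1 hy2 S hS hSp hSA ι p a hp0 hp1 ha hcoll')
    apply sum_congr rfl
    intro x _
    rfl
  have main : ∀ L : ℕ, (L : ℝ) ≤ Real.log N ^ B → ∀ S : Fin L → Finset ℕ, (∀ l, S l ⊆ Icc 1 N) → (∀ l, ∀ s ∈ S l, s.Prime) →
        (∀ l, (N : ℝ) ≤ (S l).card * Real.log N ^ A) →
        1 - 1 / Real.log N ^ U ≤ ∑ x, (if ∀ l, Windows ε W N y (S l) (a x) then p x else 0) := by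
    intro L hLB S hS hSp hSA
    have hpt : ∀ x, p x ≤ (if ∀ l, Windows ε W N y (S l) (a x) then p x else 0) +
        ∑ l, (if Windows ε W N y (S l) (a x) then 0 else p x) := by
      intro x
      have hnn : ∀ l, 0 ≤ (if Windows ε W N y (S l) (a x) then 0 else p x) := by
        intro l
        split_ifs
        · exact le_rfl
        · exact hp0 x
      by_cases h : ∀ l, Windows ε W N y (S l) (a x)
      · rw [if_pos h]
        have := sum_nonneg fun l (_ : l ∈ (univ : Finset (Fin L))) => hnn l
        linarith
      · rw [if_neg h, zero_add]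
        push Not at h
        obtain ⟨l, hl⟩ := h
        calc p x = (if Windows ε W N y (S l) (a x) then 0 else p x) := by rw [if_neg hl]
          _ ≤ _ := single_le_sum (f := fun l => if Windows ε W N y (S l) (a x) then 0 else p x) (fun l _ => hnn l) (mem_univ l)
    have h1 := sum_le_sum (s := (univ : Finset ι)) fun x _ => hpt x
    rw [hp1, sum_add_distrib, sum_comm] at h1
    have h2 : ∑ l, ∑ x, (if Windows ε W N y (S l) (a x) then 0 else p x) ≤ 1 / Real.log N ^ U := by
      calc _ ≤ ∑ _l : Fin L, 1 / Real.log N ^ (U + B) := sum_le_sum fun l _ => hone (S l) (hS l) (hSp l) (hSA l)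
        _ = L * (1 / Real.log N ^ (U + B)) := by rw [sum_const, card_univ, Fintype.card_fin, nsmul_eq_mul]
        _ ≤ Real.log N ^ B * (1 / Real.log N ^ (U + B)) := mul_le_mul_of_nonneg_right hLB (by positivity)
        _ = 1 / Real.log N ^ U := by
            rw [pow_add]
            field_simp
    linarith
  refine ⟨main, hlow, fun hA => ?_⟩
  have h1 : (N : ℝ) ≤ ((PP N).card : ℝ) * Real.log N ^ A := by
    rw [div_le_iff₀ (by positivity)] at hlow
    have h3 : Real.log N ^ 3 ≤ Real.log N ^ A := pow_le_pow_right₀ (by linarith) hA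
    calc (N : ℝ) ≤ (PP N).card * (8 * Real.log N ^ 2) := hlow
      _ ≤ (PP N).card * (Real.log N * Real.log N ^ 2) := by
          apply mul_le_mul_of_nonneg_left _ (Nat.cast_nonneg _)
          exact mul_le_mul_of_nonneg_right hL (by positivity)
      _ = (PP N).card * Real.log N ^ 3 := by ring
      _ ≤ _ := mul_le_mul_of_nonneg_left h3 (Nat.cast_nonneg _)
  have h2 := hone (PP N) (filter_subset _ _) (fun s hs => (mem_filter.1 hs).2.1) h1
  have h3 : ∑ x, p x = ∑ x, (if Windows ε W N y (PP N) (a x) then p x else 0) +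
      ∑ x, (if Windows ε W N y (PP N) (a x) then 0 else p x) := by
    rw [← sum_add_distrib]
    apply sum_congr rfl
    intro x _
    split_ifs
    · rw [add_zero]
    · rw [zero_add]
  rw [hp1] at h3
  have h4 : 1 / Real.log N ^ (U + B) ≤ 1 / Real.log N ^ U :=
    one_div_le_one_div_of_le (by positivity) (pow_le_pow_right₀ (by linarith) (by omega))
  linarith

end Pool.Agent.Results.MP_5d7b92_nt.ShortWindowsCollisions
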