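import Pool.Agent.H34x.WV.C
import Pool.Agent.HP25.OS.E

/-!
# Goldbach representations with a prime-indexed prime of almost all multiples of a small primorial in all short windows around
the values of polynomials and smoothly varying functions at integers with restricted digits, and around the multiples of the
points of measures with polynomial Fourier decay

The question is whether every even number `> 4` is `p + q` with primes `p`, `q` such that `π(p)` is prime. Here `p` runs through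
the set of these primes, or through any other sets of at least `N / log ^ A N` primes `≤ N`, up to `log ^ B N` sets at the same
time, and the even numbers are the multiples of the product `M` of the primes `≤ y`, `y` of the order `log log N`. The theorem
of the file `ShortWindowsCollisions` (windows around a random number with small collision probability) is combined with
* the moments of the exponential sums over the values of real polynomials of degree `≥ 2`, and of smoothly varying functions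
  of non-integral order, at integers with restricted digits, for instance at integers whose ternary digits are `0` and `1`;
* the quantization of measures with polynomial Fourier decay.
New here: the passage from the moments to the collision probabilities of PARTS of these random numbers (the part with values in
`[2 N, T N]`), and the stability of the windows (`Pool.Agent.H34x.WV`).
-/

set_option autoImplicit false

open Finset MeasureTheory Filter Topology

namespace Pool.Agent.Results.MP_5d7b92_nt.WindowsAroundValues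

/-- the product of `1 - 1/q` over the primes `q ≤ y` -/
noncomputable def V (y : ℕ) : ℝ := ∏ q ∈ (Icc 1 y).filter Nat.Prime, (1 - 1 / (q : ℝ))

/-- the primes `p ≤ x` such that `π(p)` is prime -/
noncomputable def PP (x : ℕ) : Finset ℕ := (Icc 1 x).filter (fun p => p.Prime ∧ (Nat.primeCounting p).Prime)

/-- the `p ∈ S` such that `n - p` is a prime number -/
def Rep (S : Finset ℕ) (n : ℤ) : Finset ℕ := S.filter (fun p : ℕ => (n - p).toNat.Prime)

/-- the multiples of `M`, numbered from the last one which is not larger than `X` -/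
noncomputable def mult (M : ℕ) (X : ℝ) (j : ℤ) : ℤ := M * (⌊X / M⌋ + j)

/-- In all windows around `X`: let `M` be the product of the primes `≤ y`. For all `G` with `log ^ W N ≤ G` and
`2 M G ≤ N`, and for all integers `j` with `|j| ≤ G` except at most `ε G` of them, `n - p` is prime for at least
`(1 - ε) #S / (V y log N)` elements `p` of `S`, where `n` is the multiple of `M` with the number `j`. -/
def Windows (ε : ℝ) (W N y : ℕ) (S : Finset ℕ) (X : ℝ) : Prop :=
  ∀ G : ℕ, Real.log N ^ W ≤ G → 2 * (primorial y * G) ≤ N →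
    (((Icc (-(G : ℤ)) G).filter (fun j => ((Rep S (mult (primorial y) X j)).card : ℝ) <
      (1 - ε) * (S.card / (V y * Real.log N)))).card : ℝ) ≤ ε * G

/-- at most `log ^ B N` sets, each of at least `N / log ^ A N` primes `≤ N` -/
def DenseSets (A B N L : ℕ) (S : Fin L → Finset ℕ) : Prop :=
  (L : ℝ) ≤ Real.log N ^ B ∧ ∀ l, S l ⊆ Icc 1 N ∧ (∀ p ∈ S l, p.Prime) ∧ (N : ℝ) ≤ (S l).card * Real.log N ^ A

/-- `K₀ log log N ≤ y ≤ K₁ log log N` -/
def InRange (K₀ K₁ N y : ℕ) : Prop :=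
  K₀ * Real.log (Real.log N) ≤ y ∧ y ≤ K₁ * Real.log (Real.log N)

/-- The integers below `b ^ k` whose `i`-th digit in base `b` lies in `D i`, for all `i < k`. -/
def DigitSet (b : ℕ) (D : ℕ → Finset ℕ) (k : ℕ) : Finset ℕ :=
  (range (b ^ k)).filter (fun n : ℕ => ∀ i < k, n / b ^ i % b ∈ D i)

open Classical in
/-- The number of the `n` in `DigitSet b D k` with `2 N ≤ g n ≤ T N` for which `Windows` fails, with `X = g n`, for one of the
sets `S l`. -/
noncomputable def exceptions (b : ℕ) (D : ℕ → Finset ℕ) (k : ℕ) (g : ℝ → ℝ) (T : ℕ) (ε : ℝ) (W N y : ℕ) {L : ℕ}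
    (S : Fin L → Finset ℕ) : ℕ :=
  ((DigitSet b D k).filter (fun n : ℕ => (2 * (N : ℝ) ≤ g n ∧ g n ≤ T * N) ∧ ¬ ∀ l, Windows ε W N y (S l) (g n))).card

/-- `f` is smoothly varying of order `c`: it is infinitely differentiable and positive for large arguments, and
`t ^ m f⁽ᵐ⁾(t) / f(t) → c (c - 1) ... (c - m + 1)` for every `m`. -/
def SmoothlyVarying (c : ℝ) (f : ℝ → ℝ) : Prop :=
  (∃ t₀ : ℝ, ∀ t > t₀, ContDiffAt ℝ ((⊤ : ℕ∞) : WithTop ℕ∞) f t ∧ 0 < f t) ∧
  ∀ m : ℕ, Tendsto (fun t => t ^ m * iteratedDeriv m f t / f t) atTop (𝓝 (∏ i ∈ range m, (c - i)))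

/-- `ν` is a probability measure on `[0, T]` whose Fourier transform is at most `C |t| ^ (-δ)`. -/
structure PowerDecay (ν : Measure ℝ) (T : ℕ) (C δ : ℝ) : Prop where
  prob : IsProbabilityMeasure ν
  supp : ν (Set.Icc (0 : ℝ) T)ᶜ = 0
  decay : ∀ t : ℝ, ‖charFun ν t‖ * |t| ^ δ ≤ C

lemma sv_of (c : ℝ) (hc : 0 < c) (hn : ∀ m : ℕ, c ≠ m) (f : ℝ → ℝ) (h : SmoothlyVarying c f) :
    Pool.Agent.N193.PS.SV c (fun m => iteratedDeriv m f) := by
  obtain ⟨⟨t₀, h0⟩, hlim⟩ := h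
  refine ⟨hc, hn, ⟨t₀ + 1, fun m t ht => ?_⟩, ?_, fun m => ?_⟩
  · have h1 := (h0 t (by linarith)).1
    have h2 : DifferentiableAt ℝ (iteratedDeriv m f) t := by
      rw [iteratedDeriv_eq_equiv_comp, LinearIsometryEquiv.comp_differentiableAt_iff]
      exact h1.differentiableAt_iteratedFDeriv (by exact_mod_cast WithTop.coe_lt_top m)
    show HasDerivAt (iteratedDeriv m f) (iteratedDeriv (m + 1) f t) t
    rw [iteratedDeriv_succ]
    exact h2.hasDerivAt
  · filter_upwards [eventually_gt_atTop t₀] with t ht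
    simp only [iteratedDeriv_zero]
    exact (h0 t ht).2
  · simpa only [iteratedDeriv_zero] using hlim m

lemma win_iff (ε : ℝ) (W N y : ℕ) (S : Finset ℕ) (X : ℝ) :
    Windows ε W N y S X ↔ Pool.Agent.H34x.WV.Win ε W N y S X := Iff.rfl

/-- Let `A` and `0 < ε ≤ 1` be given. There is `K₀` such that the following holds; `M` is always the product of the primes
`≤ y`, `K₀ log log N ≤ y ≤ K₁ log log N`, and `S l` are at most `log ^ B N` sets of at least `N / log ^ A N` primes `≤ N`.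

(1) Let `b, d ≥ 2`, `T`, `B`, `K₁`, `U` be given. There is `W` such that for all large `N`, all `k` with `N ≤ T b ^ (d k)`, all
sets `D i` of at least two digits in base `b`, and EVERY real polynomial `f` of degree `d` with leading coefficient between
`1 / T` and `T` in absolute value (nothing is assumed about the other coefficients): for all the integers `n < b ^ k` with
digits in `D i` and `2 N ≤ f n ≤ T N`, except at most `#(all n) / log ^ U N`, and for all `l`: in ALL windows of multiples of `M`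
around `f n`, of `G ≥ log ^ W N` multiples on both sides, `2 M G ≤ N`, all the multiples of `M` except at most `ε G` are `p` plus
a prime for at least `(1 - ε) #(S l) / (V y log N)` elements `p` of `S l`.

(2) The same for every smoothly varying function `f` of non-integral order `c > 0`, for `N ≤ T f (b ^ k)`.

(3) The same around `lam x` for all `x` with `2 N + 1 ≤ lam x ≤ T' N` outside a set of `ν`-measure at most `1 / log ^ U N`, for
every probability measure `ν` on `[0, T]` whose Fourier transform is at most `C |t| ^ (-δ)` and every `lam ≥ N / T'`.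

(4) Let `ν` be such a measure, `δ > 0`, and `lam k ≥ exp (k ^ c)` for large `k`, `c > 0`, `m ≥ 1`, `N k = ⌊lam k / m⌋`, and let
numbers `y k` in the range and dense sets of primes `S k l` as above be given. For `ν`-almost every `x ≥ 3 / m`, the windows
around `lam k x` have the property for all `l`, for all large `k`.

(5) The set of the primes `p ≤ N` with `π(p)` prime has at least `N / log ^ 3 N` elements for large `N`, so it may be one of the
sets in (1)-(4) if `A ≥ 3`. -/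
theorem result (A : ℕ) (ε : ℝ) (hε : 0 < ε) (hε1 : ε ≤ 1) : ∃ K₀ : ℕ,
    (∀ b d T B K₁ U : ℕ, 2 ≤ b → 2 ≤ d → 1 ≤ T → ∃ W N₀ : ℕ, ∀ N : ℕ, N₀ ≤ N → ∀ y : ℕ, InRange K₀ K₁ N y →
      ∀ (L : ℕ) (S : Fin L → Finset ℕ), DenseSets A B N L S →
      ∀ k : ℕ, N ≤ T * b ^ (d * k) → ∀ D : ℕ → Finset ℕ, (∀ i < k, D i ⊆ range b ∧ 2 ≤ (D i).card) →
      ∀ f : Polynomial ℝ, f.natDegree = d → 1 / (T : ℝ) ≤ |f.leadingCoeff| → |f.leadingCoeff| ≤ T →
      (exceptions b D k (fun t => f.eval t) T ε W N y S : ℝ) ≤ (DigitSet b D k).card / Real.log N ^ U) ∧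
    (∀ b T B K₁ U : ℕ, 2 ≤ b → 1 ≤ T → ∀ c : ℝ, 0 < c → (∀ m : ℕ, c ≠ m) → ∀ f : ℝ → ℝ, SmoothlyVarying c f →
      ∃ W N₀ : ℕ, ∀ N : ℕ, N₀ ≤ N → ∀ y : ℕ, InRange K₀ K₁ N y →
      ∀ (L : ℕ) (S : Fin L → Finset ℕ), DenseSets A B N L S →
      ∀ k : ℕ, N ≤ T * f ((b : ℝ) ^ k) → ∀ D : ℕ → Finset ℕ, (∀ i < k, D i ⊆ range b ∧ 2 ≤ (D i).card) →
      (exceptions b D k f T ε W N y S : ℝ) ≤ (DigitSet b D k).card / Real.log N ^ U) ∧
    (∀ (T T' B K₁ U : ℕ) (C δ : ℝ), 1 ≤ T' → 0 < δ → ∃ W N₀ : ℕ, ∀ N : ℕ, N₀ ≤ N → ∀ y : ℕ, InRange K₀ K₁ N y →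
      ∀ (L : ℕ) (S : Fin L → Finset ℕ), DenseSets A B N L S →
      ∀ lam : ℝ, N ≤ T' * lam → ∀ ν : Measure ℝ, PowerDecay ν T C δ →
      ν.real {x | (2 * (N : ℝ) + 1 ≤ lam * x ∧ lam * x ≤ T' * N) ∧ ¬ ∀ l, Windows ε W N y (S l) (lam * x)} ≤
        1 / Real.log N ^ U) ∧
    (∀ (T B K₁ m : ℕ) (C δ c : ℝ), 1 ≤ m → 0 < δ → 0 < c → ∃ W : ℕ, ∀ ν : Measure ℝ, PowerDecay ν T C δ →
      ∀ lam : ℕ → ℝ, (∀ᶠ k : ℕ in atTop, Real.exp ((k : ℝ) ^ c) ≤ lam k) →
      ∀ y : ℕ → ℕ, (∀ᶠ k : ℕ in atTop, InRange K₀ K₁ ⌊lam k / m⌋₊ (y k)) →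
      ∀ (L : ℕ → ℕ) (S : ∀ k, Fin (L k) → Finset ℕ), (∀ᶠ k : ℕ in atTop, DenseSets A B ⌊lam k / m⌋₊ (L k) (S k)) →
      ∀ᵐ x ∂ν, 3 ≤ (m : ℝ) * x → ∀ᶠ k : ℕ in atTop, ∀ l, Windows ε W ⌊lam k / m⌋₊ (y k) (S k l) (lam k * x)) ∧
    (∃ N₁ : ℕ, ∀ N : ℕ, N₁ ≤ N → (N : ℝ) ≤ (PP N).card * Real.log N ^ 3) := by
  classical
  obtain ⟨Ka, hKa⟩ := Pool.Agent.H34x.WV.win_mo A ε hε hε1
  obtain ⟨Kb, hKb⟩ := Pool.Agent.H34x.WV.win_decay A ε hε hε1
  -- ranges
  have hrange : ∀ (K K₁ N y : ℕ), K ≤ Ka + Kb → 1 ≤ Real.log (Real.log N) → InRange (Ka + Kb) K₁ N y →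
      K * Real.log (Real.log N) ≤ y ∧ y ≤ K₁ * Real.log (Real.log N) := by
    intro K K₁ N y hK hN hy
    refine ⟨le_trans ?_ hy.1, hy.2⟩
    apply mul_le_mul_of_nonneg_right _ (by linarith)
    exact_mod_cast hK
  obtain ⟨n5, hn5⟩ := Pool.Agent.H373R2.T7.ev_L' (Real.exp 1)
  have hll : ∀ N : ℕ, n5 ≤ N → 1 ≤ Real.log N ∧ 1 ≤ Real.log (Real.log N) := by
    intro N hN
    have h := hn5 N hN
    have h1 : (1 : ℝ) ≤ Real.exp 1 := Real.one_le_exp (by norm_num)
    refine ⟨h1.trans h, ?_⟩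
    rw [Real.le_log_iff_exp_le (by linarith)]
    exact h
  have hSD : ∀ b D k, DigitSet b D k = Pool.Agent.TH872.Sq.SD b D k := fun _ _ _ => rfl
  -- (3)
  have h3 : ∀ (T T' B K₁ U : ℕ) (C δ : ℝ), 1 ≤ T' → 0 < δ → ∃ W N₀ : ℕ, ∀ N : ℕ, N₀ ≤ N → ∀ y : ℕ, InRange (Ka + Kb) K₁ N y →
      ∀ (L : ℕ) (S : Fin L → Finset ℕ), DenseSets A B N L S →
      ∀ lam : ℝ, N ≤ T' * lam → ∀ ν : Measure ℝ, PowerDecay ν T C δ →
      ν.real {x | (2 * (N : ℝ) + 1 ≤ lam * x ∧ lam * x ≤ T' * N) ∧ ¬ ∀ l, Windows ε W N y (S l) (lam * x)} ≤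
        1 / Real.log N ^ U := by
    intro T T' B K₁ U C δ hT' hδ
    obtain ⟨W, N₀, h⟩ := hKb T T' B K₁ U C δ hT' hδ
    refine ⟨W, N₀ + n5, fun N hN y hy L S hS lam hlam ν hν => ?_⟩
    have := hν.prob
    obtain ⟨r1, r2⟩ := hrange Kb K₁ N y (by omega) (hll N (by omega)).2 hy
    exact h N (by omega) y r1 r2 L hS.1 S (fun l => (hS.2 l).1) (fun l => (hS.2 l).2.1) (fun l => (hS.2 l).2.2) lam hlam ν
      hν.supp hν.decay
  refine ⟨Ka + Kb, ?_, ?_, h3, ?_, ?_⟩
  · -- (1)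
    intro b d T B K₁ U hb hd hT
    obtain ⟨e, rfl⟩ : ∃ e, d = e + 2 := ⟨d - 2, by omega⟩
    obtain ⟨q, C₀, hq, hC₀, hmo⟩ := Pool.Agent.HP25.OS.mo_poly b hb e T T
    obtain ⟨W, N₀, h⟩ := hKa q hq C₀ T B K₁ U hC₀ hT
    refine ⟨W, N₀ + n5, fun N hN y hy L S hS k hNk D hD f hf h1 h2 => ?_⟩
    obtain ⟨r1, r2⟩ := hrange Ka K₁ N y (by omega) (hll N (by omega)).2 hy
    have hTr : (0 : ℝ) < T := by exact_mod_cast hT
    have hMo := hmo k D hD f.leadingCoeff (fun x => f.eval x) h2 (by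
      rw [div_le_iff₀ hTr] at h1
      linarith) (Pool.Agent.HP25.OS.pl_pol e f hf)
    have key := h N (by omega) y r1 r2 L hS.1 S (fun l => (hS.2 l).1) (fun l => (hS.2 l).2.1) (fun l => (hS.2 l).2.2)
      (b ^ ((e + 2) * k)) (Pool.Agent.TH872.Sq.SD b D k) (fun n => f.eval (n : ℝ)) (Nat.one_le_pow _ _ (by omega)) hNk hMo
    unfold exceptions
    rw [hSD]
    exact key
  · -- (2)
    intro b T B K₁ U hb hT c hc hn f hf
    have hsv := sv_of c hc hn f hf
    obtain ⟨q, k₁, C₀, M₀, hq, hC₀, hM₀, hneg, hmo⟩ := Pool.Agent.HP25.NI.mo_sv b hb hsv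
    obtain ⟨W, N₀, h⟩ := hKa q hq C₀ (2 * T) B K₁ U hC₀ (by omega)
    obtain ⟨n6, hn6⟩ := exists_nat_gt (T * ∑ k ∈ range k₁, |f ((b : ℝ) ^ k)|)
    refine ⟨W, N₀ + n5 + n6, fun N hN y hy L S hS k hNk D hD => ?_⟩
    obtain ⟨r1, r2⟩ := hrange Ka K₁ N y (by omega) (hll N (by omega)).2 hy
    have hTr : (1 : ℝ) ≤ T := by exact_mod_cast hT
    have hk : k₁ ≤ k := by
      by_contra hcon
      push Not at hcon
      have h1 : |f ((b : ℝ) ^ k)| ≤ ∑ k ∈ range k₁, |f ((b : ℝ) ^ k)| :=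
        single_le_sum (f := fun k => |f ((b : ℝ) ^ k)|) (fun _ _ => abs_nonneg _) (mem_range.2 hcon)
      have h2 : (N : ℝ) ≤ T * ∑ k ∈ range k₁, |f ((b : ℝ) ^ k)| :=
        hNk.trans (mul_le_mul_of_nonneg_left ((le_abs_self _).trans h1) (by linarith))
      have h3 : (n6 : ℝ) ≤ N := by exact_mod_cast (by omega : n6 ≤ N)
      linarith
    obtain ⟨hf1, -, -, -, hMo⟩ := hmo k hk
    have hMo := hMo D hD
    simp only [iteratedDeriv_zero] at hf1 hMo
    obtain ⟨Y, hY⟩ : ∃ Y, Y = ⌊f ((b : ℝ) ^ k)⌋₊ := ⟨_, rfl⟩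
    rw [← hY] at hMo
    have hY1 : 1 ≤ Y := by rw [hY]; exact Nat.le_floor (by exact_mod_cast hf1)
    have hY1r : (1 : ℝ) ≤ Y := by exact_mod_cast hY1
    have hYlt : f ((b : ℝ) ^ k) < Y + 1 := by rw [hY]; exact Nat.lt_floor_add_one _
    have hNY : N ≤ 2 * T * Y := by
      have h1 : (N : ℝ) ≤ 2 * T * Y := by
        calc (N : ℝ) ≤ T * f ((b : ℝ) ^ k) := hNk
          _ ≤ T * (2 * Y) := mul_le_mul_of_nonneg_left (by linarith) (by linarith)
          _ = _ := by ring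
      exact_mod_cast h1
    have key := h N (by omega) y r1 r2 L hS.1 S (fun l => (hS.2 l).1) (fun l => (hS.2 l).2.1) (fun l => (hS.2 l).2.2)
      Y (Pool.Agent.TH872.Sq.SD b D k) (fun n => f (n : ℝ)) hY1 hNY hMo
    unfold exceptions
    rw [hSD]
    refine le_trans ?_ key
    have hsub : (Pool.Agent.TH872.Sq.SD b D k).filter (fun n : ℕ => (2 * (N : ℝ) ≤ f n ∧ f n ≤ T * N) ∧
        ¬ ∀ l, Windows ε W N y (S l) (f n)) ⊆ (Pool.Agent.TH872.Sq.SD b D k).filter (fun n : ℕ => (2 * (N : ℝ) ≤ f n ∧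
        f n ≤ ((2 * T : ℕ) : ℝ) * N) ∧ ¬ ∀ l, Pool.Agent.H34x.WV.Win ε W N y (S l) (f n)) := by
      intro n hn
      rw [mem_filter] at hn ⊢
      obtain ⟨hn1, ⟨hn2, hn3⟩, hn4⟩ := hn
      refine ⟨hn1, ⟨hn2, hn3.trans ?_⟩, hn4⟩
      push_cast
      have : (0 : ℝ) ≤ N := Nat.cast_nonneg _
      nlinarith
    exact_mod_cast card_le_card hsub
  · -- (4)
    intro T B K₁ m C δ c hm hδ hc
    obtain ⟨U, hU⟩ := exists_nat_ge (2 / c)
    obtain ⟨T₂, hT₂⟩ : ∃ T₂, T₂ = 2 * m * (T + 1) := ⟨_, rfl⟩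
    have hT₂1 : 1 ≤ T₂ := by rw [hT₂]; exact Nat.mul_pos (by omega) (by omega)
    obtain ⟨W, N₀, h⟩ := h3 T T₂ B K₁ U C δ hT₂1 hδ
    refine ⟨W, fun ν hν lam hlam y hy L S hS => ?_⟩
    have := hν.prob
    have hmr : (1 : ℝ) ≤ m := by exact_mod_cast hm
    have hkc : Tendsto (fun k : ℕ => (k : ℝ) ^ c) atTop atTop := (tendsto_rpow_atTop hc).comp tendsto_natCast_atTop_atTop
    have hexp : Tendsto (fun k : ℕ => Real.exp ((k : ℝ) ^ c)) atTop atTop := Real.tendsto_exp_atTop.comp hkc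
    have hlt : Tendsto lam atTop atTop := tendsto_atTop_mono' _ hlam hexp
    have hNt : ∀ᶠ k : ℕ in atTop, (lam k / (2 * m) ≤ (⌊lam k / m⌋₊ : ℕ) ∧ ((⌊lam k / m⌋₊ : ℕ) : ℝ) ≤ lam k / m) ∧ m ≤ lam k := by
      filter_upwards [hlt.eventually_ge_atTop (2 * m : ℝ)] with k hk
      have h1 : 2 ≤ lam k / m := by rw [le_div_iff₀ (by linarith)]; exact hk
      have h2 := Nat.lt_floor_add_one (lam k / m)
      have h3 := Nat.floor_le (by linarith : 0 ≤ lam k / m)
      have e : lam k / (2 * m) = lam k / m / 2 := by field_simp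
      refine ⟨⟨?_, h3⟩, by linarith⟩
      rw [e]
      linarith
    have hN0 : ∀ᶠ k : ℕ in atTop, N₀ ≤ ⌊lam k / m⌋₊ := by
      filter_upwards [hNt, hlt.eventually_ge_atTop (2 * m * N₀ : ℝ)] with k hk1 hk2
      have h1 : (N₀ : ℝ) ≤ lam k / (2 * m) := by
        rw [le_div_iff₀ (by linarith)]
        linarith
      exact_mod_cast h1.trans hk1.1.1
    have hlog : ∀ᶠ k : ℕ in atTop, (k : ℝ) ^ c / 2 ≤ Real.log (⌊lam k / m⌋₊ : ℕ) := by
      filter_upwards [hNt, hlam, hkc.eventually_ge_atTop (2 * Real.log (2 * m))] with k hk1 hk2 hk3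
      have h1 : Real.exp ((k : ℝ) ^ c) / (2 * m) ≤ (⌊lam k / m⌋₊ : ℕ) :=
        le_trans (by gcongr) hk1.1.1
      have h2 : 0 < Real.exp ((k : ℝ) ^ c) / (2 * m) := by positivity
      have h4 := Real.log_le_log h2 h1
      rw [Real.log_div (Real.exp_pos _).ne' (by positivity), Real.log_exp] at h4
      linarith
    have hae := Pool.Agent.H34x.WV.ae_scales' ν (fun k => ⌊lam k / m⌋₊) c hc U hU hlog
      (fun k => {x | (2 * ((⌊lam k / m⌋₊ : ℕ) : ℝ) + 1 ≤ lam k * x ∧ lam k * x ≤ T₂ * (⌊lam k / m⌋₊ : ℕ)) ∧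
        ¬ ∀ l, Windows ε W ⌊lam k / m⌋₊ (y k) (S k l) (lam k * x)}) (by
      filter_upwards [hNt, hN0, hy, hS] with k hk1 hk2 hk3 hk4
      apply h _ hk2 (y k) hk3 (L k) (S k) hk4 (lam k) _ ν hν
      refine hk1.1.2.trans ?_
      have h1 : lam k / m ≤ lam k := div_le_self (by linarith [hk1.2]) hmr
      refine h1.trans ?_
      exact le_mul_of_one_le_left (by linarith [hk1.2]) (by exact_mod_cast hT₂1))
    have hsupp : ∀ᵐ x ∂ν, x ∈ Set.Icc (0 : ℝ) T := by
      rw [ae_iff]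
      exact hν.supp
    filter_upwards [hae, hsupp] with x hx hxT h3x
    filter_upwards [hx, hNt] with k hk hk1
    by_contra hcon
    apply hk
    refine ⟨⟨?_, ?_⟩, hcon⟩
    · have h1 : 3 * (lam k / m) ≤ lam k * x := by
        have e : lam k * x = lam k / m * (m * x) := by field_simp
        rw [e, mul_comm]
        apply mul_le_mul_of_nonneg_left h3x
        have : 0 ≤ lam k := by linarith [hk1.2]
        positivity
      have h2 : 1 ≤ lam k / m := by rw [le_div_iff₀ (by linarith)]; linarith [hk1.2]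
      linarith [hk1.1.2]
    · have h1 : lam k * x ≤ lam k * T := mul_le_mul_of_nonneg_left hxT.2 (by linarith [hk1.2])
      have h2 := hk1.1.1
      rw [div_le_iff₀ (by linarith)] at h2
      refine h1.trans ?_
      rw [hT₂]
      push_cast
      obtain ⟨Nk, hNk⟩ : ∃ Nk : ℝ, Nk = (⌊lam k / m⌋₊ : ℕ) := ⟨_, rfl⟩
      rw [← hNk] at h2 ⊢
      have hNk0 : 0 ≤ Nk := by rw [hNk]; exact Nat.cast_nonneg _
      calc lam k * T ≤ (Nk * (2 * m)) * T := mul_le_mul_of_nonneg_right h2 (Nat.cast_nonneg _)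
        _ ≤ (Nk * (2 * m)) * (T + 1) := by
            apply mul_le_mul_of_nonneg_left _ (by positivity)
            linarith
        _ = _ := by ring
  · -- (5)
    obtain ⟨n2, hn2⟩ := Pool.Agent.Y877.SX.PPi_low
    obtain ⟨n3, hn3⟩ := Pool.Agent.H373R2.T7.ev_L' 8
    refine ⟨n2 + n3 + 1, fun N hN => ?_⟩
    have hL := hn3 N (by omega)
    have hlow : (N : ℝ) / (8 * Real.log N ^ 2) ≤ ((PP N).card : ℝ) := hn2 N (by omega)
    have hL0 : 0 < Real.log N := by linarith
    rw [div_le_iff₀ (by positivity)] at hlow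
    calc (N : ℝ) ≤ (PP N).card * (8 * Real.log N ^ 2) := hlow
      _ ≤ (PP N).card * (Real.log N * Real.log N ^ 2) := by
          apply mul_le_mul_of_nonneg_left _ (Nat.cast_nonneg _)
          exact mul_le_mul_of_nonneg_right hL (by positivity)
      _ = _ := by ring

end Pool.Agent.Results.MP_5d7b92_nt.WindowsAroundValues
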